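import Pool.Agent.P.MP_0b48ca_al.Crit.Main

/-!
Necessary and sufficient conditions, for every prime `p`, for a finite `p`-group `G` of
nilpotency class 2 to satisfy `Aut G = Aut_c G`.
-/

namespace Pool.Agent.Old.MP_0b48ca_al.Criterion

open Pool.Agent.P.MP_0b48ca_al.Crit
open scoped commutatorElement

universe u

theorem result (p : ℕ) (hp : p.Prime) (G : Type u) [Group G] [Finite G] (hG : IsPGroup p G)
    (h1 : commutator G ≠ ⊥) (h2 : commutator G ≤ Subgroup.center G) :
    List.TFAE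
      [∀ α : G ≃* G, ∀ x : G, IsConj x (α x),
       (∀ N : Subgroup G, N.Normal → N.Characteristic) ∧
        (∃ (B : Type u) (_ : CommGroup B), Nonempty (Abelianization G ≃* B × B)) ∧
        Monoid.exponent G = Monoid.exponent (commutator G) ^ 2,
       Subgroup.center G = commutator G ∧
        (∀ x : G, ∀ w ∈ commutator G,
          (∀ k n : ℕ, (∃ g : G, x ^ k * (g ^ n)⁻¹ ∈ commutator G) →
            ∃ v ∈ commutator G, w ^ k = v ^ n) → ∃ y : G, w = ⁅x, y⁆) ∧
        Monoid.exponent G = Monoid.exponent (commutator G) ^ 2 ∧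
        ∀ N : Subgroup G, commutator G ≤ N → N.Characteristic] := by
  have : Fact p.Prime := ⟨hp⟩
  have : Two G := ⟨h2⟩
  tfae_have 1 → 2 := fun h =>
    ⟨nc_of_cp h, sq_of_homCam (center_eq_of_cp hG h1 h) (homCam_of_cp h), exp_of_cp hG h1 h⟩
  tfae_have 2 → 3 := fun ⟨hN, hS, hE⟩ =>
    ⟨center_eq_of_nc hG h1 hN hS hE, height_of_homCam (homCam_of_nc hG hN hS), hE,
      fun N hle => hN N (Subgroup.Normal.of_commutator_le G hle)⟩
  tfae_have 3 → 1 := fun ⟨hZ, hH, hE, hC⟩ =>
    cp_of_core hG h1 hZ (homCam_of_height hH) hE hC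
  tfae_finish

end Pool.Agent.Old.MP_0b48ca_al.Criterion
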